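import Mathlib

set_option autoImplicit false

namespace Pool.Agent.X886.CSN

open Finset Filter Topology MeasureTheory

/-! ### continued fractions with partial quotients at least two -/

/-- `[0; a 0, ..., a (n-1) + y]` -/
noncomputable def TC (a : ℕ → ℕ) : ℕ → ℝ → ℝ
  | 0, y => y
  | n + 1, y => TC a n (1 / (a n + y))

theorem TC_left (a : ℕ → ℕ) (n : ℕ) (y : ℝ) :
    TC a (n + 1) y = 1 / (a 0 + TC (fun k => a (k + 1)) n y) := by
  induction n generalizing y with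
  | zero => rfl
  | succ n ih =>
    rw [TC, ih]
    rfl

theorem inv_mem {a : ℕ} (ha : 2 ≤ a) {y : ℝ} (hy : 0 ≤ y ∧ y ≤ 1) :
    0 ≤ 1 / ((a : ℝ) + y) ∧ 1 / ((a : ℝ) + y) ≤ 1 := by
  have h : (2 : ℝ) ≤ a := by exact_mod_cast ha
  refine ⟨by have := hy.1; positivity, ?_⟩
  rw [div_le_one (by linarith [hy.1])]
  linarith [hy.1]

theorem TC_mem {a : ℕ → ℕ} (ha : ∀ n, 2 ≤ a n) (n : ℕ) {y : ℝ} (hy : 0 ≤ y ∧ y ≤ 1) :
    0 ≤ TC a n y ∧ TC a n y ≤ 1 := by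
  induction n generalizing y with
  | zero => exact hy
  | succ n ih => exact ih (inv_mem (ha n) hy)

theorem TC_contr {a : ℕ → ℕ} (ha : ∀ n, 2 ≤ a n) (n : ℕ) {y y' : ℝ} (hy : 0 ≤ y ∧ y ≤ 1)
    (hy' : 0 ≤ y' ∧ y' ≤ 1) : |TC a n y - TC a n y'| ≤ (1 / 4) ^ n * |y - y'| := by
  induction n generalizing y y' with
  | zero => simp [TC]
  | succ n ih =>
    refine (ih (inv_mem (ha n) hy) (inv_mem (ha n) hy')).trans ?_
    have h : (2 : ℝ) ≤ a n := by exact_mod_cast ha n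
    have h1 : 0 < (a n : ℝ) + y := by linarith [hy.1]
    have h2 : 0 < (a n : ℝ) + y' := by linarith [hy'.1]
    have h3 : 1 / ((a n : ℝ) + y) - 1 / (a n + y') = (y' - y) / ((a n + y) * (a n + y')) := by
      field_simp
      ring
    rw [h3, abs_div, abs_of_pos (mul_pos h1 h2), pow_succ, mul_assoc]
    gcongr
    rw [abs_sub_comm, div_le_iff₀ (by positivity)]
    have h4 : 4 ≤ ((a n : ℝ) + y) * (a n + y') := by nlinarith [hy.1, hy'.1]
    nlinarith [abs_nonneg (y - y')]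

/-- the value of the infinite continued fraction -/
noncomputable def cf (a : ℕ → ℕ) : ℝ := limUnder atTop fun n => TC a n 0

theorem cf_tendsto {a : ℕ → ℕ} (ha : ∀ n, 2 ≤ a n) :
    Tendsto (fun n => TC a n 0) atTop (𝓝 (cf a)) := by
  apply CauchySeq.tendsto_limUnder
  apply cauchySeq_of_le_geometric (1 / 4) 1 (by norm_num)
  intro n
  rw [Real.dist_eq]
  have h0 : (0 : ℝ) ≤ 0 ∧ (0 : ℝ) ≤ 1 := ⟨le_rfl, zero_le_one⟩
  refine (TC_contr ha n h0 (inv_mem (ha n) h0)).trans ?_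
  have h1 := inv_mem (ha n) h0
  rw [one_mul]
  have h2 : |0 - 1 / ((a n : ℝ) + 0)| ≤ 1 := by
    rw [zero_sub, abs_neg, abs_of_nonneg h1.1]
    exact h1.2
  calc (1 / 4 : ℝ) ^ n * |0 - 1 / ((a n : ℝ) + 0)| ≤ (1 / 4) ^ n * 1 := by gcongr
    _ = _ := mul_one _

theorem cf_mem {a : ℕ → ℕ} (ha : ∀ n, 2 ≤ a n) : 0 ≤ cf a ∧ cf a ≤ 1 := by
  have h0 : (0 : ℝ) ≤ 0 ∧ (0 : ℝ) ≤ 1 := ⟨le_rfl, zero_le_one⟩
  exact ⟨ge_of_tendsto' (cf_tendsto ha) fun n => (TC_mem ha n h0).1,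
    le_of_tendsto' (cf_tendsto ha) fun n => (TC_mem ha n h0).2⟩

theorem cf_eq {a : ℕ → ℕ} (ha : ∀ n, 2 ≤ a n) : cf a = 1 / (a 0 + cf fun k => a (k + 1)) := by
  have h1 := (cf_tendsto ha).comp (tendsto_add_atTop_nat 1)
  have ha' : ∀ n, 2 ≤ a (n + 1) := fun n => ha _
  have h2 : Tendsto (fun n => TC a (n + 1) 0) atTop (𝓝 (1 / (a 0 + cf fun k => a (k + 1)))) := by
    simp only [TC_left]
    have h3 : (a 0 : ℝ) + cf (fun k => a (k + 1)) ≠ 0 := by
      have := (cf_mem ha').1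
      have h : (2 : ℝ) ≤ a 0 := by exact_mod_cast ha 0
      linarith
    exact tendsto_const_nhds.div (tendsto_const_nhds.add (cf_tendsto ha')) h3
  exact tendsto_nhds_unique h1 h2

theorem cf_TC {a : ℕ → ℕ} (ha : ∀ n, 2 ≤ a n) (n : ℕ) :
    cf a = TC a n (cf fun k => a (k + n)) := by
  induction n with
  | zero => rfl
  | succ n ih =>
    rw [ih, TC, cf_eq (a := fun k => a (k + n)) fun k => ha _]
    simp only [zero_add]
    congr 5
    funext k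
    congr 1
    ring

theorem cf_lt {a : ℕ → ℕ} (ha : ∀ n, 2 ≤ a n) : 0 < cf a ∧ cf a < 1 := by
  have ha' : ∀ n, 2 ≤ a (n + 1) := fun n => ha _
  have h := cf_mem ha'
  have h2 : (2 : ℝ) ≤ a 0 := by exact_mod_cast ha 0
  rw [cf_eq ha]
  refine ⟨by have := h.1; positivity, ?_⟩
  rw [div_lt_one (by linarith [h.1])]
  linarith [h.1]

/-- numerators -/
def pp (a : ℕ → ℕ) : ℕ → ℕ × ℕ
  | 0 => (1, 0)
  | n + 1 => ((pp a n).2, (pp a n).1 + a n * (pp a n).2)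

/-- denominators -/
def qq (a : ℕ → ℕ) : ℕ → ℕ × ℕ
  | 0 => (0, 1)
  | n + 1 => ((qq a n).2, (qq a n).1 + a n * (qq a n).2)

theorem qq_pos {a : ℕ → ℕ} (ha : ∀ n, 2 ≤ a n) (n : ℕ) :
    1 ≤ (qq a n).2 ∧ (qq a n).1 ≤ (qq a n).2 := by
  induction n with
  | zero => exact ⟨le_rfl, Nat.zero_le _⟩
  | succ n ih =>
    simp only [qq]
    have := ha n
    constructor
    · nlinarith [ih.1]
    · nlinarith [ih.1]

theorem det (a : ℕ → ℕ) (n : ℕ) :
    ((pp a n).1 : ℝ) * (qq a n).2 - (pp a n).2 * (qq a n).1 = (-1) ^ n := by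
  induction n with
  | zero => simp [pp, qq]
  | succ n ih =>
    simp only [pp, qq]
    push_cast
    rw [pow_succ, ← ih]
    ring

theorem TC_eq {a : ℕ → ℕ} (ha : ∀ n, 2 ≤ a n) (n : ℕ) {y : ℝ} (hy : 0 ≤ y) :
    TC a n y = ((pp a n).1 * y + (pp a n).2) / ((qq a n).1 * y + (qq a n).2) := by
  induction n generalizing y with
  | zero => simp [TC, pp, qq]
  | succ n ih =>
    have h : (2 : ℝ) ≤ a n := by exact_mod_cast ha n
    have h1 : 0 < (a n : ℝ) + y := by linarith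
    rw [TC, ih (by positivity)]
    simp only [pp, qq]
    push_cast
    have h2 : (1 : ℝ) ≤ (qq a n).2 := by exact_mod_cast (qq_pos ha n).1
    have h3 : (0 : ℝ) ≤ (qq a n).1 := by positivity
    have h4 : ((qq a n).1 : ℝ) * (1 / (a n + y)) + (qq a n).2 ≠ 0 := by positivity
    have h5 : ((qq a n).2 : ℝ) * y + ((qq a n).1 + a n * (qq a n).2) ≠ 0 := by positivity
    rw [div_eq_div_iff h4 h5]
    field_simp
    ring

theorem TC_succ_eq {a : ℕ → ℕ} (ha : ∀ n, 2 ≤ a n) (n : ℕ) {y : ℝ} (hy : 0 ≤ y) :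
    TC a (n + 1) y = (pp a n).2 / (qq a n).2 +
      (-1) ^ n / (((qq a n).2 : ℝ) ^ 2 * (a n + (y + (qq a n).1 / (qq a n).2))) := by
  have h : (2 : ℝ) ≤ a n := by exact_mod_cast ha n
  have h1 : 0 < (a n : ℝ) + y := by linarith
  rw [TC, TC_eq ha n (by positivity), ← det a n]
  have h2 : (1 : ℝ) ≤ (qq a n).2 := by exact_mod_cast (qq_pos ha n).1
  have h2' : (0 : ℝ) < (qq a n).2 := by linarith
  have h3 : (0 : ℝ) ≤ (qq a n).1 := by positivity
  have h4 : ((qq a n).1 : ℝ) * (1 / (a n + y)) + (qq a n).2 ≠ 0 := by positivity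
  have h6 : (a n : ℝ) + (y + (qq a n).1 / (qq a n).2) ≠ 0 := by positivity
  have h7 : ((qq a n).1 : ℝ) + (qq a n).2 * (a n + y) ≠ 0 := by positivity
  field_simp
  ring

end Pool.Agent.X886.CSN
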