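import Pool.Agent.X886.CSN.ExpS
import Pool.Agent.X886.CSN.CF

set_option autoImplicit false

namespace Pool.Agent.X886.CSN

open Finset Filter Topology MeasureTheory
open Pool.Agent.H469R2.NK (e norm_e e_add)

/-! ### the random continued fraction -/

/-- the sizes of the partial quotients -/
def AA (n : ℕ) : ℕ := 2 ^ 2 ^ n

instance (n : ℕ) : NeZero (AA n) := ⟨by unfold AA; positivity⟩

theorem AA_ge (n : ℕ) : 2 ≤ AA n := by
  unfold AA
  calc 2 = 2 ^ 1 := rfl
    _ ≤ 2 ^ 2 ^ n := Nat.pow_le_pow_right (by norm_num) Nat.one_le_two_pow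

theorem AA_succ (n : ℕ) : AA (n + 1) = AA n ^ 2 := by
  unfold AA
  rw [← pow_mul, pow_succ]

/-- the probability space -/
abbrev Om : Type := ∀ n : ℕ, Fin (AA n)

/-- the partial quotients -/
def dig (ω : Om) (n : ℕ) : ℕ := AA n + (ω n : ℕ)

theorem dig_ge (ω : Om) (n : ℕ) : 2 ≤ dig ω n := (AA_ge n).trans (Nat.le_add_right _ _)

theorem dig_lt (ω : Om) (n : ℕ) : dig ω n < 2 * AA n := by
  have := (ω n).2
  unfold dig
  omega

/-- the uniform distribution -/
noncomputable def nu (n : ℕ) : Measure (Fin (AA n)) := (PMF.uniformOfFintype (Fin (AA n))).toMeasure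

instance (n : ℕ) : IsProbabilityMeasure (nu n) := by unfold nu; infer_instance

theorem nu_map (n : ℕ) (σ : Fin (AA n) ≃ Fin (AA n)) : (nu n).map σ = nu n := by
  apply Measure.ext_of_singleton
  intro b
  rw [Measure.map_apply (measurable_of_finite _) (measurableSet_singleton _)]
  have : σ ⁻¹' {b} = {σ.symm b} := by
    ext a
    simp [Equiv.eq_symm_apply]
  rw [this, nu, PMF.toMeasure_apply_singleton _ _ (measurableSet_singleton _),
    PMF.toMeasure_apply_singleton _ _ (measurableSet_singleton _), PMF.uniformOfFintype_apply,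
    PMF.uniformOfFintype_apply]

/-- the product measure -/
noncomputable def mu : Measure Om := Measure.infinitePi nu

instance : IsProbabilityMeasure mu := by unfold mu; infer_instance

theorem mu_map (n : ℕ) (k : Fin (AA n)) :
    mu.map (fun ω => Function.update ω n (ω n + k)) = mu := by
  have h1 : (fun ω : Om => Function.update ω n (ω n + k)) = fun ω i =>
      (Function.update (fun i => (id : Fin (AA i) → Fin (AA i))) n (fun a => a + k)) i (ω i) := by
    funext ω i
    by_cases hi : i = n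
    · subst hi
      simp
    · simp [Function.update_of_ne hi]
  rw [h1, mu, Measure.infinitePi_map_pi]
  · congr 1
    funext i
    by_cases hi : i = n
    · subst hi
      rw [Function.update_self]
      exact nu_map i (Equiv.addRight k)
    · rw [Function.update_of_ne hi, Measure.map_id]
  · intro i
    exact measurable_of_finite _

theorem measurable_upd (n : ℕ) (k : Fin (AA n)) :
    Measurable (fun ω : Om => Function.update ω n (ω n + k)) := by
  refine measurable_pi_lambda _ fun i => ?_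
  by_cases hi : i = n
  · subst hi
    simp only [Function.update_self]
    exact (measurable_of_finite (fun a : Fin (AA i) => a + k)).comp (measurable_pi_apply i)
  · simp only [Function.update_of_ne hi]
    exact measurable_pi_apply i

/-- integrate over one coordinate first -/
theorem norm_integral_le (F : Om → ℂ) (hF : Measurable F) (hF1 : ∀ ω, ‖F ω‖ ≤ 1) (n : ℕ) (B : ℝ)
    (h : ∀ ω, ‖∑ b, F (Function.update ω n b)‖ ≤ B) : ‖∫ ω, F ω ∂mu‖ ≤ B / AA n := by
  have hint : ∀ G : Om → ℂ, Measurable G → (∀ ω, ‖G ω‖ ≤ 1) → Integrable G mu := fun G hG hG1 =>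
    Integrable.of_bound hG.aestronglyMeasurable 1 (Eventually.of_forall hG1)
  have hk : ∀ k, ∫ ω, F (Function.update ω n (ω n + k)) ∂mu = ∫ ω, F ω ∂mu := by
    intro k
    nth_rewrite 2 [← mu_map n k]
    rw [integral_map (measurable_upd n k).aemeasurable hF.aestronglyMeasurable]
  have h1 : (AA n : ℂ) * ∫ ω, F ω ∂mu = ∫ ω, ∑ b, F (Function.update ω n b) ∂mu := by
    have h2 : ∫ ω, ∑ b, F (Function.update ω n b) ∂mu =
        ∫ ω, ∑ k, F (Function.update ω n (ω n + k)) ∂mu := by
      congr 1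
      funext ω
      exact (Equiv.sum_comp (Equiv.addLeft (ω n)) fun b => F (Function.update ω n b)).symm
    rw [h2, integral_finsetSum]
    · simp only [hk]
      rw [sum_const, card_univ, Fintype.card_fin, nsmul_eq_mul]
    · intro k _
      exact hint _ (hF.comp (measurable_upd n k)) fun ω => hF1 _
  have h3 : ‖∫ ω, ∑ b, F (Function.update ω n b) ∂mu‖ ≤ B := by
    have := norm_integral_le_of_norm_le_const (μ := mu) (f := fun ω => ∑ b, F (Function.update ω n b))
      (C := B) (Eventually.of_forall h)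
    simpa using this
  have hA : (0 : ℝ) < AA n := by
    have := AA_ge n
    exact_mod_cast (by omega : 0 < AA n)
  rw [← h1, norm_mul, Complex.norm_natCast] at h3
  rw [le_div_iff₀ hA]
  linarith

/-- the random number -/
noncomputable def X (ω : Om) : ℝ := cf (dig ω)

theorem measurable_TC (n : ℕ) (y : Om → ℝ) (hy : Measurable y) :
    Measurable fun ω => TC (dig ω) n (y ω) := by
  induction n generalizing y with
  | zero => exact hy
  | succ n ih =>
    simp only [TC]
    apply ih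
    have h1 : Measurable fun ω : Om => ((dig ω n : ℕ) : ℝ) :=
      (measurable_of_finite (fun a : Fin (AA n) => ((AA n + (a : ℕ) : ℕ) : ℝ))).comp
        (measurable_pi_apply n)
    exact (h1.add hy).const_div 1

theorem measurable_X : Measurable X := by
  refine measurable_of_tendsto_metrizable (f := fun n ω => TC (dig ω) n 0)
    (fun n => measurable_TC n _ measurable_const) ?_
  rw [tendsto_pi_nhds]
  intro ω
  exact cf_tendsto (dig_ge ω)

theorem pp_congr {a a' : ℕ → ℕ} {n : ℕ} (h : ∀ i < n, a i = a' i) : pp a n = pp a' n := by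
  induction n with
  | zero => rfl
  | succ n ih =>
    have := ih fun i hi => h i (by omega)
    simp only [pp, this, h n (by omega)]

theorem qq_congr {a a' : ℕ → ℕ} {n : ℕ} (h : ∀ i < n, a i = a' i) : qq a n = qq a' n := by
  induction n with
  | zero => rfl
  | succ n ih =>
    have := ih fun i hi => h i (by omega)
    simp only [qq, this, h n (by omega)]

theorem X_update (ω : Om) (n : ℕ) (b : Fin (AA n)) : X (Function.update ω n b) =
    (pp (dig ω) n).2 / (qq (dig ω) n).2 + (-1) ^ n / (((qq (dig ω) n).2 : ℝ) ^ 2 *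
      (AA n + (b : ℕ) + (cf (fun k => dig ω (k + (n + 1))) + (qq (dig ω) n).1 / (qq (dig ω) n).2))) := by
  have ha := dig_ge (Function.update ω n b)
  have h1 : ∀ i < n, dig (Function.update ω n b) i = dig ω i := by
    intro i hi
    simp only [dig]
    rw [Function.update_of_ne (by omega)]
  have h2 : (fun k => dig (Function.update ω n b) (k + (n + 1))) = fun k => dig ω (k + (n + 1)) := by
    funext k
    simp only [dig]
    rw [Function.update_of_ne (by omega)]
  have h3 : dig (Function.update ω n b) n = AA n + (b : ℕ) := by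
    simp only [dig, Function.update_self]
  rw [X, cf_TC ha (n + 1), TC_succ_eq ha n (cf_mem fun _ => ha _).1, pp_congr h1, qq_congr h1, h2, h3]
  push_cast
  rfl

theorem qq_bounds (ω : Om) (n : ℕ) : AA n ≤ 2 * (qq (dig ω) n).2 ∧
    2 * (qq (dig ω) n).2 ≤ 2 ^ n * AA n := by
  induction n with
  | zero => simp [qq, AA]
  | succ n ih =>
    have h1 := qq_pos (dig_ge ω) n
    have h2 : AA n ≤ dig ω n := Nat.le_add_right _ _
    have h3 := dig_lt ω n
    simp only [qq]
    rw [AA_succ]
    constructor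
    · calc AA n ^ 2 = AA n * AA n := by ring
        _ ≤ dig ω n * (2 * (qq (dig ω) n).2) := Nat.mul_le_mul h2 ih.1
        _ ≤ _ := by nlinarith
    · calc 2 * ((qq (dig ω) n).1 + dig ω n * (qq (dig ω) n).2)
          ≤ 2 * ((dig ω n + 1) * (qq (dig ω) n).2) := by nlinarith [h1.2]
        _ ≤ 2 * ((2 * AA n) * (qq (dig ω) n).2) := by gcongr; omega
        _ = 2 * AA n * (2 * (qq (dig ω) n).2) := by ring
        _ ≤ 2 * AA n * (2 ^ n * AA n) := Nat.mul_le_mul_left _ ih.2
        _ = _ := by ring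

theorem four_pow_le (n : ℕ) : ((4 : ℝ) ^ n) ≤ 4 * (AA n : ℝ) ^ (1 / 2 : ℝ) := by
  have h0 : 4 * n ≤ 4 + 2 ^ n := by
    rcases Nat.lt_or_ge n 4 with h | h
    · interval_cases n <;> norm_num
    · induction n, h using Nat.le_induction with
      | base => norm_num
      | succ m hm ih =>
        rw [pow_succ]
        have : 16 ≤ 2 ^ m := by
          calc 16 = 2 ^ 4 := by norm_num
            _ ≤ 2 ^ m := Nat.pow_le_pow_right (by norm_num) hm
        omega
  have h1 : ((4 : ℝ) ^ n) ^ 2 ≤ (4 * (AA n : ℝ) ^ (1 / 2 : ℝ)) ^ 2 := by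
    have h2 : ((AA n : ℝ) ^ (1 / 2 : ℝ)) ^ 2 = AA n := by
      rw [← Real.rpow_natCast, ← Real.rpow_mul (by positivity)]
      norm_num
    rw [mul_pow, h2]
    have h3 : ((4 : ℝ) ^ n) ^ 2 = 2 ^ (4 * n) := by
      rw [← pow_mul, show (4 : ℝ) = 2 ^ 2 by norm_num, ← pow_mul]
      congr 1
      ring
    have h4 : (4 : ℝ) ^ 2 * (AA n : ℝ) = 2 ^ (4 + 2 ^ n) := by
      unfold AA
      push_cast
      rw [pow_add]
      norm_num
    rw [h3, h4]
    exact pow_le_pow_right₀ (by norm_num) h0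
  exact le_of_sq_le_sq h1 (by positivity)

theorem e_neg_ne (x : ℝ) : ‖e x‖ = 1 := norm_e x

theorem continuous_e : Continuous e := by
  unfold e
  fun_prop

/-- the Fourier transform of the distribution of `X` decays like a power -/
theorem decay : ∃ κ : ℝ, 0 < κ ∧ ∃ C : ℝ, 0 < C ∧ ∀ ξ : ℝ, 16 ≤ |ξ| →
    ‖∫ ω, e (ξ * X ω) ∂mu‖ ≤ C * |ξ| ^ (-κ) := by
  obtain ⟨η, hη0, -, C, hC, hexp⟩ := expsum
  refine ⟨η / 8, by positivity, C, hC, fun ξ hξ => ?_⟩
  have hex : ∃ n, |ξ| < (AA (n + 1) : ℝ) ^ 4 := by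
    obtain ⟨n, hn⟩ := exists_nat_gt |ξ|
    refine ⟨n, hn.trans_le ?_⟩
    have h1 : n ≤ AA (n + 1) := by
      unfold AA
      calc n ≤ 2 ^ n := Nat.lt_two_pow_self.le
        _ ≤ 2 ^ 2 ^ (n + 1) := Nat.pow_le_pow_right (by norm_num)
          (by have := @Nat.lt_two_pow_self (n + 1); omega)
    have h2 : (1 : ℝ) ≤ AA (n + 1) := by
      have := AA_ge (n + 1)
      exact_mod_cast (by omega : 1 ≤ AA (n + 1))
    calc (n : ℝ) ≤ AA (n + 1) := by exact_mod_cast h1
      _ = (AA (n + 1) : ℝ) ^ 1 := (pow_one _).symm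
      _ ≤ _ := pow_le_pow_right₀ h2 (by norm_num)
  classical
  set n := Nat.find hex with hn
  have hup := Nat.find_spec hex
  rw [← hn] at hup
  have hlo : (AA n : ℝ) ^ 4 ≤ |ξ| := by
    rcases Nat.eq_zero_or_pos n with h0 | h0
    · rw [h0]
      simp only [AA]
      norm_num
      linarith
    · by_contra hlt
      rw [not_le] at hlt
      exact Nat.find_min hex (m := n - 1) (by omega) (by
        rwa [Nat.sub_add_cancel h0])
  have hA2 : (2 : ℝ) ≤ AA n := by exact_mod_cast AA_ge n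
  have hA0 : (0 : ℝ) < AA n := by linarith
  have hup' : |ξ| ≤ (AA n : ℝ) ^ 8 := by
    rw [AA_succ] at hup
    push_cast at hup
    rw [← pow_mul] at hup
    exact hup.le
  have key : ‖∫ ω, e (ξ * X ω) ∂mu‖ ≤ C * (AA n : ℝ) ^ (1 - η) / AA n := by
    apply norm_integral_le _ (continuous_e.measurable.comp (measurable_X.const_mul ξ))
      (fun ω => (norm_e _).le) n
    intro ω
    simp only [Function.comp]
    set q : ℝ := (((qq (dig ω) n).2 : ℕ) : ℝ) with hq
    set u : ℝ := cf (fun k => dig ω (k + (n + 1))) + (qq (dig ω) n).1 / (qq (dig ω) n).2 with hu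
    have hq1 : 1 ≤ q := by
      rw [hq]
      exact_mod_cast (qq_pos (dig_ge ω) n).1
    have hq' : ((qq (dig ω) n).1 : ℝ) ≤ q := by
      rw [hq]
      exact_mod_cast (qq_pos (dig_ge ω) n).2
    have hcf := cf_mem (a := fun k => dig ω (k + (n + 1))) fun _ => dig_ge ω _
    have hq0 : 0 < q := by linarith
    have hu0 : 0 ≤ u := by
      have : (0 : ℝ) ≤ (qq (dig ω) n).1 / (qq (dig ω) n).2 := by positivity
      linarith [hcf.1]
    have hu2 : u ≤ AA n := by
      have : ((qq (dig ω) n).1 : ℝ) / (qq (dig ω) n).2 ≤ 1 := by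
        rw [div_le_one hq0]
        exact hq'
      linarith [hcf.2]
    have hqup : 2 * q ≤ 2 ^ n * AA n := by
      rw [hq]
      exact_mod_cast (qq_bounds ω n).2
    have hX : ∀ b : Fin (AA n), e (ξ * X (Function.update ω n b)) =
        e (ξ * ((pp (dig ω) n).2 / q)) * e ((ξ * (-1) ^ n / q ^ 2) / (AA n + (b : ℕ) + u)) := by
      intro b
      rw [← e_add, X_update]
      congr 1
      rw [mul_add, ← hq, ← hu]
      congr 1
      have : (AA n : ℝ) + (b : ℕ) + u ≠ 0 := by positivity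
      field_simp
    have hsum : ∑ b : Fin (AA n), e (ξ * X (Function.update ω n b)) =
        e (ξ * ((pp (dig ω) n).2 / q)) *
          ∑ b ∈ range (AA n), e ((ξ * (-1) ^ n / q ^ 2) / (AA n + (b : ℕ) + u)) := by
      rw [← Fin.sum_univ_eq_sum_range (fun b : ℕ => e ((ξ * (-1) ^ n / q ^ 2) / (AA n + (b : ℝ) + u))),
        mul_sum]
      exact sum_congr rfl fun b _ => hX b
    rw [hsum, norm_mul, norm_e, one_mul]
    have hZ : |ξ * (-1) ^ n / q ^ 2| = |ξ| / q ^ 2 := by
      rw [abs_div, abs_mul, abs_pow, abs_neg, abs_one, one_pow, mul_one, abs_of_pos (by positivity : 0 < q ^ 2)]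
    apply hexp (AA n) u _ (by have := AA_ge n; omega) hu0 hu2
    · rw [hZ, le_div_iff₀ (by positivity)]
      have h4 := four_pow_le n
      have h5 : (AA n : ℝ) ^ (3 / 2 : ℝ) * (AA n : ℝ) ^ (1 / 2 : ℝ) = (AA n : ℝ) ^ 2 := by
        rw [← Real.rpow_add hA0, ← Real.rpow_natCast]
        norm_num
      have h6 : (2 * q) ^ 2 ≤ 4 ^ n * (AA n : ℝ) ^ 2 := by
        calc (2 * q) ^ 2 ≤ (2 ^ n * AA n) ^ 2 := by gcongr
          _ = _ := by
            rw [mul_pow, ← pow_mul, mul_comm n 2, pow_mul]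
            norm_num
      have h7 : q ^ 2 ≤ (AA n : ℝ) ^ (1 / 2 : ℝ) * (AA n : ℝ) ^ 2 := by
        have h8 : 4 * q ^ 2 ≤ 4 * ((AA n : ℝ) ^ (1 / 2 : ℝ) * (AA n : ℝ) ^ 2) := by
          calc 4 * q ^ 2 = (2 * q) ^ 2 := by ring
            _ ≤ 4 ^ n * (AA n : ℝ) ^ 2 := h6
            _ ≤ (4 * (AA n : ℝ) ^ (1 / 2 : ℝ)) * (AA n : ℝ) ^ 2 := by gcongr
            _ = _ := by ring
        linarith
      calc (AA n : ℝ) ^ (3 / 2 : ℝ) * q ^ 2 ≤
            (AA n : ℝ) ^ (3 / 2 : ℝ) * ((AA n : ℝ) ^ (1 / 2 : ℝ) * (AA n : ℝ) ^ 2) := by gcongr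
        _ = (AA n : ℝ) ^ 2 * (AA n : ℝ) ^ 2 := by rw [← mul_assoc, h5]
        _ = (AA n : ℝ) ^ 4 := by ring
        _ ≤ |ξ| := hlo
    · rw [hZ, div_le_iff₀ (by positivity)]
      calc |ξ| ≤ (AA n : ℝ) ^ 8 := hup'
        _ = (AA n : ℝ) ^ 8 * 1 := (mul_one _).symm
        _ ≤ _ := by
          gcongr
          exact one_le_pow₀ hq1
  refine key.trans ?_
  have h1 : C * (AA n : ℝ) ^ (1 - η) / AA n = C * (AA n : ℝ) ^ (-η) := by
    rw [mul_div_assoc]
    congr 1
    rw [div_eq_iff hA0.ne']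
    nth_rewrite 3 [← Real.rpow_one (AA n : ℝ)]
    rw [← Real.rpow_add hA0]
    congr 1
    ring
  rw [h1]
  gcongr
  have hξ0 : 0 < |ξ| := by linarith
  have h2 : |ξ| ^ (1 / 8 : ℝ) ≤ AA n := by
    calc |ξ| ^ (1 / 8 : ℝ) ≤ ((AA n : ℝ) ^ 8) ^ (1 / 8 : ℝ) := by gcongr
      _ = AA n := by
        rw [← Real.rpow_natCast, ← Real.rpow_mul hA0.le]
        norm_num
  calc (AA n : ℝ) ^ (-η) ≤ (|ξ| ^ (1 / 8 : ℝ)) ^ (-η) :=
        Real.rpow_le_rpow_of_nonpos (by positivity) h2 (by linarith)
    _ = _ := by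
      rw [← Real.rpow_mul hξ0.le]
      congr 1
      ring

end Pool.Agent.X886.CSN
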