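import Pool.Agent.X886.CSN.Weyl
import Pool.Agent.H534R3.UD

/-!
# Cantor-series distribution normality and continued-fraction normality
-/

set_option autoImplicit false

namespace Pool.Agent.X886.CSN.DistNormal

open Filter Topology MeasureTheory

/-- `T_{Q,n}(x) = q_1 q_2 ... q_n x mod 1`; here `Q i` is `q_{i+1}`. -/
noncomputable def T (Q : ℕ → ℕ) (n : ℕ) (x : ℝ) : ℝ :=
  Int.fract ((∏ i ∈ Finset.range n, (Q i : ℝ)) * x)

/-- `x` is `Q`-distribution normal: the sequence `T_{Q,n}(x)`, `n ≥ 0`, is uniformly distributed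
modulo one. -/
def DN (Q : ℕ → ℕ) (x : ℝ) : Prop := ∀ s t : ℝ, 0 ≤ s → s ≤ t → t ≤ 1 →
  Tendsto (fun N : ℕ =>
    (((Finset.range N).filter (fun n => s ≤ T Q n x ∧ T Q n x < t)).card : ℝ) / (N : ℝ))
    atTop (𝓝 (t - s))

/-- The Gauss map `1/y mod 1`. -/
noncomputable def gauss (y : ℝ) : ℝ := Int.fract (1 / y)

/-- The partial quotient `a_{n+1}` of `y` in `(0,1)`. -/
noncomputable def pq (y : ℝ) (n : ℕ) : ℤ := ⌊1 / (gauss^[n] y)⌋

/-- The numbers in `(0,1)` whose continued fraction begins with the word `w`. -/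
def cyl (w : List ℕ) : Set ℝ :=
  {y | 0 < y ∧ y < 1 ∧ ∀ (i : ℕ) (h : i < w.length), pq y i = (w[i] : ℤ)}

/-- The Gauss measure. -/
noncomputable def gmeas (S : Set ℝ) : ℝ := (∫ y in S, 1 / (1 + y)) / Real.log 2

/-- `x` is normal with respect to the regular continued fraction expansion. -/
def NCF (x : ℝ) : Prop := Irrational x ∧ ∀ w : List ℕ, w ≠ [] → (∀ m ∈ w, 1 ≤ m) →
  Tendsto (fun N : ℕ =>
    (Set.ncard {n : ℕ | n < N ∧ ∀ (i : ℕ) (h : i < w.length),
      pq (Int.fract x) (n + i) = (w[i] : ℤ)} : ℝ) / (N : ℝ))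
    atTop (𝓝 (gmeas (cyl w)))

open Pool.Agent.X886.CSN

theorem ee_eq (x : ℝ) : Pool.Agent.H534R3.UDist.ee x = Pool.Agent.H469R2.NK.e x := by
  unfold Pool.Agent.H534R3.UDist.ee Pool.Agent.H469R2.NK.e
  congr 1
  push_cast
  ring

theorem gauss_cf {a : ℕ → ℕ} (ha : ∀ n, 2 ≤ a n) : gauss (cf a) = cf fun k => a (k + 1) := by
  have h := cf_lt (a := fun k => a (k + 1)) fun n => ha _
  rw [gauss, cf_eq ha, one_div_one_div, Int.fract_natCast_add, Int.fract_eq_self.2 ⟨h.1.le, h.2⟩]

theorem gauss_iter {a : ℕ → ℕ} (ha : ∀ n, 2 ≤ a n) (n : ℕ) :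
    gauss^[n] (cf a) = cf fun k => a (k + n) := by
  induction n with
  | zero => rfl
  | succ n ih =>
    rw [Function.iterate_succ_apply', ih, gauss_cf fun k => ha _]
    congr 1
    funext k
    congr 1
    ring

theorem pq_cf {a : ℕ → ℕ} (ha : ∀ n, 2 ≤ a n) (n : ℕ) : pq (cf a) n = a n := by
  have h := cf_lt (a := fun k => a (k + 1 + n)) fun n => ha _
  rw [pq, gauss_iter ha, cf_eq (a := fun k => a (k + n)) fun k => ha _, one_div_one_div,
    Int.floor_natCast_add, Int.floor_eq_zero_iff.2 ⟨h.1.le, h.2⟩]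
  simp

theorem cyl_one : cyl [1] = Set.Ioo (1 / 2) 1 := by
  ext y
  constructor
  · rintro ⟨h0, h1, h⟩
    have h2 := h 0 (by simp)
    simp only [pq, Function.iterate_zero, id, List.getElem_cons_zero, Nat.cast_one] at h2
    rw [Int.floor_eq_iff] at h2
    refine ⟨?_, h1⟩
    have h3 := h2.2
    rw [div_lt_iff₀ h0] at h3
    norm_num at h3
    linarith
  · rintro ⟨h1, h2⟩
    have h0 : 0 < y := by linarith
    refine ⟨h0, h2, fun i hi => ?_⟩
    simp only [List.length_singleton, Nat.lt_one_iff] at hi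
    subst hi
    simp only [pq, Function.iterate_zero, id, List.getElem_cons_zero, Nat.cast_one]
    rw [Int.floor_eq_iff]
    constructor
    · rw [le_div_iff₀ h0]
      norm_num
      linarith
    · rw [div_lt_iff₀ h0]
      norm_num
      linarith

theorem gmeas_one_pos : 0 < gmeas (cyl [1]) := by
  rw [gmeas, cyl_one, ← integral_Ioc_eq_integral_Ioo,
    ← intervalIntegral.integral_of_le (by norm_num)]
  apply div_pos _ (Real.log_pos one_lt_two)
  apply intervalIntegral.intervalIntegral_pos_of_pos_on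
  · apply ContinuousOn.intervalIntegrable
    intro y hy
    rw [Set.uIcc_of_le (by norm_num)] at hy
    have : (1 : ℝ) + y ≠ 0 := by linarith [hy.1]
    exact (continuousAt_const.div (continuousAt_const.add continuousAt_id) this).continuousWithinAt
  · intro y hy
    have := hy.1
    positivity
  · norm_num

/-- For every sequence `Q_0, Q_1, ...` of basic sequences there is a number which is distribution
normal with respect to all of them and not continued-fraction normal. In particular
`DN(Q) ≠ N_CF` for every basic sequence `Q`. -/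
theorem exists_dn_not_ncf (Q : ℕ → ℕ → ℕ) (hQ : ∀ k n, 2 ≤ Q k n) :
    ∃ x : ℝ, (∀ k, DN (Q k) x) ∧ ¬ NCF x := by
  obtain ⟨ω, hω⟩ := exists_weyl (fun k n => ∏ i ∈ Finset.range n, Q k i) (fun k => by simp)
    (fun k n => by
      rw [Finset.prod_range_succ, mul_comm]
      exact Nat.mul_le_mul_left _ (hQ k n))
  refine ⟨X ω, fun k => ?_, ?_⟩
  · apply Pool.Agent.H534R3.UDist.ud_of_weyl (fun n => (∏ i ∈ Finset.range n, (Q k i : ℝ)) * X ω)
    intro h hh
    refine (hω k h hh).congr fun N => ?_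
    congr 2
    unfold SS
    refine Finset.sum_congr rfl fun n _ => ?_
    rw [ee_eq]
    congr 1
    push_cast
    ring
  · rintro ⟨-, h⟩
    have h1 := h [1] (by simp) (by simp)
    have ha := dig_ge ω
    have hx : Int.fract (X ω) = cf (dig ω) := by
      have := cf_lt ha
      exact Int.fract_eq_self.2 ⟨this.1.le, this.2⟩
    have h2 : ∀ N : ℕ, {n : ℕ | n < N ∧ ∀ (i : ℕ) (h : i < [1].length),
        pq (Int.fract (X ω)) (n + i) = (([1] : List ℕ)[i] : ℤ)} = ∅ := by
      intro N
      rw [Set.eq_empty_iff_forall_notMem]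
      rintro n ⟨-, hn⟩
      have h3 := hn 0 (by simp)
      rw [hx, pq_cf ha] at h3
      simp only [add_zero, List.getElem_cons_zero, Nat.cast_one, Nat.cast_eq_one] at h3
      have := ha n
      omega
    simp only [h2, Set.ncard_empty, Nat.cast_zero, zero_div] at h1
    have h4 := tendsto_nhds_unique h1 tendsto_const_nhds
    exact gmeas_one_pos.ne' h4

end Pool.Agent.X886.CSN.DistNormal
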