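import Pool.Agent.H221R2.FB_VdcGen
import Pool.Agent.H534R3.UD

set_option autoImplicit false

namespace Pool.Agent.X886.CSN

open Finset Filter Topology MeasureTheory
open Pool.Agent.H469R2.NK (e norm_e e_add)

/-- the phase `-J/t` and its derivatives -/
noncomputable def ph (J : ℝ) (m : ℕ) (t : ℝ) : ℝ := (-1) ^ (m + 1) * m.factorial * J / t ^ (m + 1)

theorem ph_der (J : ℝ) (m : ℕ) {t : ℝ} (ht : 0 < t) : HasDerivAt (ph J m) (ph J (m + 1) t) t := by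
  have h1 : HasDerivAt (fun x : ℝ => (x ^ (m + 1))⁻¹) (-((m + 1 : ℕ) * t ^ m) / (t ^ (m + 1)) ^ 2) t := by
    have := (hasDerivAt_pow (m + 1) t).fun_inv (by positivity)
    simpa using this
  have h2 := h1.const_mul ((-1) ^ (m + 1) * m.factorial * J)
  have h3 : ((-1) ^ (m + 1) * m.factorial * J) * (-((m + 1 : ℕ) * t ^ m) / (t ^ (m + 1)) ^ 2) =
      ph J (m + 1) t := by
    rw [ph, Nat.factorial_succ]
    push_cast
    field_simp
    ring
  rw [h3] at h2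
  refine h2.congr_of_eventuallyEq ?_
  filter_upwards with x
  rw [ph, div_eq_mul_inv]

theorem ph_bd {J : ℝ} (hJ : 0 < J) (M m : ℕ) (hm : m ≤ M + 4) {t : ℝ}
    (ht : t ∈ Set.Icc J (3 * J)) :
    1 / 3 ^ (M + 5) ≤ (-1) ^ (m + 1) * ph J m t * J ^ m ∧
      (-1) ^ (m + 1) * ph J m t * J ^ m ≤ ((M + 4).factorial : ℝ) := by
  have ht0 : 0 < t := lt_of_lt_of_le hJ ht.1
  have h1 : (-1 : ℝ) ^ (m + 1) * ph J m t * J ^ m = m.factorial * (J / t) ^ (m + 1) := by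
    have h2 : (-1 : ℝ) ^ (m + 1) * (-1 : ℝ) ^ (m + 1) = 1 := by
      rw [← mul_pow]
      norm_num
    rw [ph, div_pow, pow_succ J m]
    have : (-1 : ℝ) ^ (m + 1) * ((-1) ^ (m + 1) * (m.factorial : ℝ) * J / t ^ (m + 1)) * J ^ m =
      ((-1 : ℝ) ^ (m + 1) * (-1 : ℝ) ^ (m + 1)) * (m.factorial * J / t ^ (m + 1) * J ^ m) := by ring
    rw [this, h2]
    ring
  rw [h1]
  have h3 : 1 / 3 ≤ J / t := by
    rw [div_le_div_iff₀ (by norm_num) ht0]
    linarith [ht.2]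
  have h4 : J / t ≤ 1 := by
    rw [div_le_one ht0]
    exact ht.1
  constructor
  · calc (1 : ℝ) / 3 ^ (M + 5) ≤ 1 / 3 ^ (m + 1) := by
          apply one_div_le_one_div_of_le (by positivity)
          exact pow_le_pow_right₀ (by norm_num) (by omega)
      _ = (1 / 3) ^ (m + 1) := by rw [div_pow, one_pow]
      _ ≤ (J / t) ^ (m + 1) := by gcongr
      _ ≤ m.factorial * (J / t) ^ (m + 1) := by
          have : (1 : ℝ) ≤ m.factorial := by exact_mod_cast Nat.factorial_pos m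
          have h5 : 0 ≤ (J / t) ^ (m + 1) := by positivity
          nlinarith
  · calc (m.factorial : ℝ) * (J / t) ^ (m + 1) ≤ m.factorial * 1 := by
          gcongr
          exact pow_le_one₀ (by positivity) h4
      _ ≤ _ := by
          rw [mul_one]
          exact_mod_cast Nat.factorial_le hm

/-- the exponential sum -/
theorem expsum : ∃ η : ℝ, 0 < η ∧ η ≤ 1 / 2 ∧ ∃ C : ℝ, 0 < C ∧ ∀ (J : ℕ) (u Z : ℝ), 1 ≤ J → 0 ≤ u →
    u ≤ J → (J : ℝ) ^ (3 / 2 : ℝ) ≤ |Z| → |Z| ≤ (J : ℝ) ^ 8 →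
    ‖∑ n ∈ range J, e (Z / (J + n + u))‖ ≤ C * (J : ℝ) ^ (1 - η) := by
  obtain ⟨η, hη0, hη1, C, hC, h⟩ := Pool.Agent.H221R2.FB.vdc_gen 7 (1 / 3 ^ (7 + 5))
    ((7 + 4).factorial : ℝ) (by positivity)
  refine ⟨min η (1 / 2), by positivity, min_le_right _ _, 2 * C, by positivity, ?_⟩
  intro J u Z hJ hu huJ hZ1 hZ2
  have hJ' : (1 : ℝ) ≤ J := by exact_mod_cast hJ
  have hJ0 : (0 : ℝ) < J := by linarith
  have hZJ : |-Z / J| = |Z| / J := by rw [abs_div, abs_neg, abs_of_pos hJ0]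
  have h32 : (J : ℝ) * (J : ℝ) ^ (1 / 2 : ℝ) = (J : ℝ) ^ (3 / 2 : ℝ) := by
    nth_rewrite 1 [← Real.rpow_one (J : ℝ)]
    rw [← Real.rpow_add hJ0]
    norm_num
  have hJh : (1 : ℝ) ≤ (J : ℝ) ^ (1 / 2 : ℝ) := Real.one_le_rpow hJ' (by norm_num)
  have h1 : (J : ℝ) ^ (1 / 2 : ℝ) ≤ |-Z / J| := by
    rw [hZJ, le_div_iff₀ hJ0, mul_comm, h32]
    exact hZ1
  have h2 : |-Z / J| ≤ (J : ℝ) ^ 7 := by
    rw [hZJ, div_le_iff₀ hJ0, ← pow_succ]
    exact hZ2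
  have key := h J J (J + u) (-Z / J) (ph J) hJ (by linarith) le_rfl (by linarith)
    (fun m _ t ht => ph_der J m (lt_of_lt_of_le hJ0 ht.1))
    (fun m _ hm t ht => ph_bd hJ0 7 m hm ht) (hJh.trans h1) h2
  have h3 : ∀ n : ℕ, -Z / J * ph J 0 (J + u + n) = Z / (J + n + u) := by
    intro n
    have : (J : ℝ) + u + n ≠ 0 := by positivity
    have : (J : ℝ) + n + u ≠ 0 := by positivity
    simp only [ph]
    norm_num
    field_simp
    ring
  simp only [h3] at key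
  refine key.trans ?_
  have h4 : (J : ℝ) / |-Z / J| ≤ (J : ℝ) ^ (1 / 2 : ℝ) := by
    rw [div_le_iff₀ (by linarith)]
    calc (J : ℝ) = (J : ℝ) ^ (1 / 2 : ℝ) * (J : ℝ) ^ (1 / 2 : ℝ) := by
          rw [← Real.rpow_add hJ0]; norm_num
      _ ≤ _ := by gcongr
  have h5 : (J : ℝ) ^ (1 / 2 : ℝ) ≤ (J : ℝ) ^ (1 - min η (1 / 2)) := by
    apply Real.rpow_le_rpow_of_exponent_le hJ'
    have := min_le_right η (1 / 2)
    linarith
  have h6 : (J : ℝ) ^ (1 - η) ≤ (J : ℝ) ^ (1 - min η (1 / 2)) := by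
    apply Real.rpow_le_rpow_of_exponent_le hJ'
    have := min_le_left η (1 / 2)
    linarith
  calc C * ((J : ℝ) ^ (1 - η) + J / |-Z / J|) ≤
      C * ((J : ℝ) ^ (1 - min η (1 / 2)) + (J : ℝ) ^ (1 - min η (1 / 2))) := by
        gcongr
        exact h4.trans h5
    _ = _ := by ring

end Pool.Agent.X886.CSN
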