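import Pool.Agent.X886.CSN.Decay

set_option autoImplicit false

namespace Pool.Agent.X886.CSN

open Finset Filter Topology MeasureTheory
open Pool.Agent.H469R2.NK (e norm_e e_add)

/-! ### Weyl sums along sequences growing at least by the factor two -/

/-- the Weyl sum -/
noncomputable def SS (P : ℕ → ℕ) (h N : ℕ) (ω : Om) : ℂ :=
  ∑ n ∈ range N, e ((h * P n : ℝ) * X ω)

theorem e_conj (x : ℝ) : starRingEnd ℂ (e x) = e (-x) := Pool.Agent.H469R2.NK.conj_e x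

theorem sq_norm_sum (P : ℕ → ℕ) (h N : ℕ) (ω : Om) :
    ((‖SS P h N ω‖ ^ 2 : ℝ) : ℂ) = ∑ m ∈ range N, ∑ n ∈ range N,
      e ((h * (P m - P n) : ℝ) * X ω) := by
  have h1 : ((‖SS P h N ω‖ ^ 2 : ℝ) : ℂ) = SS P h N ω * starRingEnd ℂ (SS P h N ω) := by
    rw [Complex.mul_conj, Complex.normSq_eq_norm_sq]
  rw [h1, SS, map_sum, sum_mul_sum]
  refine sum_congr rfl fun m _ => sum_congr rfl fun n _ => ?_
  rw [e_conj, ← e_add]
  congr 1
  ring

theorem pow_le_P {P : ℕ → ℕ} (h0 : 1 ≤ P 0) (hP : ∀ n, 2 * P n ≤ P (n + 1)) (n : ℕ) :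
    2 ^ n ≤ P n := by
  induction n with
  | zero => simpa using h0
  | succ n ih =>
    rw [pow_succ]
    linarith [hP n]

theorem P_gap {P : ℕ → ℕ} (hP : ∀ n, 2 * P n ≤ P (n + 1)) {n m : ℕ} (h : n < m) :
    2 * P n ≤ P m := by
  induction m, h using Nat.le_induction with
  | base => exact hP n
  | succ m hm ih => linarith [hP m]

theorem norm_int_le (ξ : ℝ) : ‖∫ ω, e (ξ * X ω) ∂mu‖ ≤ 1 := by
  have := norm_integral_le_of_norm_le_const (μ := mu) (f := fun ω => e (ξ * X ω))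
    (C := 1) (Eventually.of_forall fun _ => (norm_e _).le)
  simpa using this

theorem offdiag (P : ℕ → ℕ) (h0 : 1 ≤ P 0) (hP : ∀ n, 2 * P n ≤ P (n + 1)) :
    ∃ s : ℝ, 0 < s ∧ s < 1 ∧ ∃ C : ℝ, 0 < C ∧ ∀ h : ℕ, 1 ≤ h → ∀ m n : ℕ, m ≠ n →
      ‖∫ ω, e ((h * (P m - P n) : ℝ) * X ω) ∂mu‖ ≤ C * (s ^ m * s ^ n) := by
  obtain ⟨κ, hκ, C, hC, hdec⟩ := decay
  set s : ℝ := (2 : ℝ) ^ (-κ / 2) with hs
  have hs0 : 0 < s := by rw [hs]; positivity
  have hs1 : s < 1 := by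
    rw [hs]
    exact Real.rpow_lt_one_of_one_lt_of_neg (by norm_num) (by linarith)
  refine ⟨s, hs0, hs1, max ((s ^ 10)⁻¹) (C * 2 ^ κ), by positivity, fun h hh m n hmn => ?_⟩
  have key : ∀ m n : ℕ, n < m → ‖∫ ω, e ((h * (P m - P n) : ℝ) * X ω) ∂mu‖ ≤
      max ((s ^ 10)⁻¹) (C * 2 ^ κ) * (s ^ m * s ^ n) ∧
      ‖∫ ω, e ((h * (P n - P m) : ℝ) * X ω) ∂mu‖ ≤
      max ((s ^ 10)⁻¹) (C * 2 ^ κ) * (s ^ m * s ^ n) := by
    intro m n hlt
    rcases Nat.lt_or_ge m 5 with h5 | h5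
    · have h1 : 1 ≤ max ((s ^ 10)⁻¹) (C * 2 ^ κ) * (s ^ m * s ^ n) := by
        rw [← pow_add]
        calc 1 = (s ^ 10)⁻¹ * s ^ 10 := by rw [inv_mul_cancel₀ (by positivity)]
          _ ≤ max ((s ^ 10)⁻¹) (C * 2 ^ κ) * s ^ (m + n) := by
            apply mul_le_mul (le_max_left _ _) _ (by positivity) (by positivity)
            exact pow_le_pow_of_le_one hs0.le hs1.le (by omega)
      exact ⟨(norm_int_le _).trans h1, (norm_int_le _).trans h1⟩
    · have hPg : (2 : ℝ) * P n ≤ P m := by exact_mod_cast P_gap hP hlt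
      have hP2 : (2 : ℝ) ^ m ≤ P m := by exact_mod_cast pow_le_P h0 hP m
      have hh' : (1 : ℝ) ≤ h := by exact_mod_cast hh
      have hPn : (0 : ℝ) ≤ P n := by positivity
      have hdiff : (2 : ℝ) ^ (m - 1) ≤ P m - P n := by
        have : (2 : ℝ) ^ m = 2 * 2 ^ (m - 1) := by
          rw [← pow_succ']
          congr 1
          omega
        linarith
      have hpos : (0 : ℝ) < 2 ^ (m - 1) := by positivity
      have hξ : (2 : ℝ) ^ (m - 1) ≤ h * (P m - P n) := by nlinarith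
      have h16 : (16 : ℝ) ≤ 2 ^ (m - 1) := by
        calc (16 : ℝ) = 2 ^ 4 := by norm_num
          _ ≤ _ := pow_le_pow_right₀ (by norm_num) (by omega)
      have hbound : ∀ ξ : ℝ, (2 : ℝ) ^ (m - 1) ≤ |ξ| → ‖∫ ω, e (ξ * X ω) ∂mu‖ ≤
          max ((s ^ 10)⁻¹) (C * 2 ^ κ) * (s ^ m * s ^ n) := by
        intro ξ hle
        refine (hdec ξ (h16.trans hle)).trans ?_
        have h1 : |ξ| ^ (-κ) ≤ ((2 : ℝ) ^ (m - 1)) ^ (-κ) :=
          Real.rpow_le_rpow_of_nonpos hpos hle (by linarith)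
        have h2 : ((2 : ℝ) ^ (m - 1)) ^ (-κ) = 2 ^ κ * (s ^ m * s ^ m) := by
          rw [hs, ← Real.rpow_natCast, ← Real.rpow_natCast, ← Real.rpow_mul (by norm_num),
            ← Real.rpow_mul (by norm_num), ← Real.rpow_add (by norm_num),
            ← Real.rpow_add (by norm_num)]
          congr 1
          rw [Nat.cast_sub (by omega)]
          push_cast
          ring
        have h3 : s ^ m ≤ s ^ n := pow_le_pow_of_le_one hs0.le hs1.le hlt.le
        calc C * |ξ| ^ (-κ) ≤ C * (2 ^ κ * (s ^ m * s ^ m)) := by rw [← h2]; gcongr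
          _ = (C * 2 ^ κ) * (s ^ m * s ^ m) := by ring
          _ ≤ _ := by
            apply mul_le_mul (le_max_right _ _) _ (by positivity) (by positivity)
            gcongr
      constructor
      · apply hbound
        rw [abs_of_nonneg (by linarith)]
        exact hξ
      · apply hbound
        rw [← abs_neg, abs_of_nonneg (by nlinarith)]
        linarith
  rcases lt_or_gt_of_ne hmn with hlt | hgt
  · have := (key n m hlt).2
    rwa [mul_comm (s ^ n)] at this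
  · exact (key m n hgt).1

theorem integrable_e (c : ℝ) : Integrable (fun ω => e (c * X ω)) mu :=
  Integrable.of_bound (continuous_e.measurable.comp (measurable_X.const_mul c)).aestronglyMeasurable
    1 (Eventually.of_forall fun _ => (norm_e _).le)

theorem measurable_SS (P : ℕ → ℕ) (h N : ℕ) : Measurable (SS P h N) := by
  unfold SS
  refine Finset.measurable_sum _ fun n _ => ?_
  exact continuous_e.measurable.comp (measurable_X.const_mul _)

theorem norm_SS_le (P : ℕ → ℕ) (h N : ℕ) (ω : Om) : ‖SS P h N ω‖ ≤ N := by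
  unfold SS
  refine (norm_sum_le _ _).trans ?_
  simp [norm_e]

/-- second moments -/
theorem moment (P : ℕ → ℕ) (h0 : 1 ≤ P 0) (hP : ∀ n, 2 * P n ≤ P (n + 1)) :
    ∃ C : ℝ, 0 < C ∧ ∀ h : ℕ, 1 ≤ h → ∀ N : ℕ, ∫ ω, ‖SS P h N ω‖ ^ 2 ∂mu ≤ N + C := by
  obtain ⟨s, hs0, hs1, C, hC, hoff⟩ := offdiag P h0 hP
  have h1s : 0 < 1 - s := by linarith
  refine ⟨C * ((1 - s)⁻¹ * (1 - s)⁻¹), by positivity, fun h hh N => ?_⟩
  have h1 : ((∫ ω, ‖SS P h N ω‖ ^ 2 ∂mu : ℝ) : ℂ) = ∑ m ∈ range N, ∑ n ∈ range N,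
      ∫ ω, e ((h * (P m - P n) : ℝ) * X ω) ∂mu := by
    rw [← integral_complex_ofReal]
    simp only [sq_norm_sum]
    rw [integral_finsetSum]
    · refine sum_congr rfl fun m _ => ?_
      rw [integral_finsetSum]
      exact fun n _ => integrable_e _
    · exact fun m _ => integrable_finsetSum _ fun n _ => integrable_e _
  have h2 : 0 ≤ ∫ ω, ‖SS P h N ω‖ ^ 2 ∂mu := integral_nonneg fun ω => by positivity
  have h3 : ∫ ω, ‖SS P h N ω‖ ^ 2 ∂mu = ‖((∫ ω, ‖SS P h N ω‖ ^ 2 ∂mu : ℝ) : ℂ)‖ := by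
    rw [Complex.norm_real, Real.norm_of_nonneg h2]
  rw [h3, h1]
  have hterm : ∀ m n : ℕ, ‖∫ ω, e ((h * (P m - P n) : ℝ) * X ω) ∂mu‖ ≤
      (if m = n then 1 else 0) + C * (s ^ m * s ^ n) := by
    intro m n
    by_cases hmn : m = n
    · subst hmn
      rw [if_pos rfl]
      have h4 : 0 ≤ C * (s ^ m * s ^ m) := by positivity
      linarith [norm_int_le ((h * (P m - P m) : ℝ))]
    · rw [if_neg hmn, zero_add]
      exact hoff h hh m n hmn
  have hgeo : ∑ m ∈ range N, s ^ m ≤ (1 - s)⁻¹ := by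
    rw [← tsum_geometric_of_lt_one hs0.le hs1]
    exact (summable_geometric_of_lt_one hs0.le hs1).sum_le_tsum _ fun _ _ => by positivity
  calc ‖∑ m ∈ range N, ∑ n ∈ range N, ∫ ω, e ((h * (P m - P n) : ℝ) * X ω) ∂mu‖
      ≤ ∑ m ∈ range N, ∑ n ∈ range N, ((if m = n then 1 else 0) + C * (s ^ m * s ^ n)) := by
        refine (norm_sum_le _ _).trans (sum_le_sum fun m _ => ?_)
        exact (norm_sum_le _ _).trans (sum_le_sum fun n _ => hterm m n)
    _ = N + C * ((∑ m ∈ range N, s ^ m) * ∑ n ∈ range N, s ^ n) := by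
        simp only [sum_add_distrib]
        congr 1
        · rw [sum_congr rfl fun m hm => by rw [sum_ite_eq, if_pos hm]]
          simp
        · rw [sum_mul_sum, mul_sum]
          exact sum_congr rfl fun m _ => by rw [mul_sum]
    _ ≤ _ := by
        have h5 : 0 ≤ ∑ m ∈ range N, s ^ m := sum_nonneg fun _ _ => by positivity
        have h6 : (∑ m ∈ range N, s ^ m) * ∑ n ∈ range N, s ^ n ≤ (1 - s)⁻¹ * (1 - s)⁻¹ :=
          mul_le_mul hgeo hgeo h5 (inv_nonneg.2 h1s.le)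
        have h7 := mul_le_mul_of_nonneg_left h6 hC.le
        linarith

theorem summable_inv_sq : Summable fun k : ℕ => (1 : ℝ) / ((k : ℝ) + 1) ^ 2 := by
  have h := (summable_nat_add_iff (f := fun n : ℕ => 1 / (n : ℝ) ^ 2) 1).2
    (Real.summable_one_div_nat_pow.2 one_lt_two)
  refine h.congr fun k => ?_
  push_cast
  rfl

/-- almost surely the Weyl sums along squares are small -/
theorem ae_squares (P : ℕ → ℕ) (h0 : 1 ≤ P 0) (hP : ∀ n, 2 * P n ≤ P (n + 1)) (h : ℕ)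
    (hh : 1 ≤ h) : ∀ᵐ ω ∂mu, Tendsto (fun k : ℕ => ‖SS P h ((k + 1) ^ 2) ω‖ / ((k : ℝ) + 1) ^ 2)
      atTop (𝓝 0) := by
  obtain ⟨C, hC, hmom⟩ := moment P h0 hP
  set f : ℕ → Om → ℝ := fun k ω => (‖SS P h ((k + 1) ^ 2) ω‖ / ((k : ℝ) + 1) ^ 2) ^ 2 with hf
  have hfm : ∀ k, Measurable (f k) := fun k => (((measurable_SS P h _).norm).div_const _).pow_const 2
  have hf0 : ∀ k ω, 0 ≤ f k ω := fun k ω => by positivity
  have hf1 : ∀ k ω, f k ω ≤ 1 := by
    intro k ω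
    have h1 := norm_SS_le P h ((k + 1) ^ 2) ω
    push_cast at h1
    have h2 : ‖SS P h ((k + 1) ^ 2) ω‖ / ((k : ℝ) + 1) ^ 2 ≤ 1 := by
      rw [div_le_one (by positivity)]
      exact h1
    exact pow_le_one₀ (by positivity) h2
  have hfint : ∀ k, Integrable (f k) mu := fun k =>
    Integrable.of_bound (hfm k).aestronglyMeasurable 1 (Eventually.of_forall fun ω => by
      rw [Real.norm_of_nonneg (hf0 k ω)]
      exact hf1 k ω)
  have hint : ∀ k, ∫ ω, f k ω ∂mu ≤ (1 + C) * (1 / ((k : ℝ) + 1) ^ 2) := by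
    intro k
    have h1 : ∫ ω, f k ω ∂mu = (∫ ω, ‖SS P h ((k + 1) ^ 2) ω‖ ^ 2 ∂mu) / (((k : ℝ) + 1) ^ 2) ^ 2 := by
      rw [← integral_div]
      congr 1
      funext ω
      rw [hf]
      simp only [div_pow]
    rw [h1, div_le_iff₀ (by positivity)]
    have h2 := hmom h hh ((k + 1) ^ 2)
    push_cast at h2
    have h3 : (1 : ℝ) ≤ ((k : ℝ) + 1) ^ 2 := one_le_pow₀ (by
      have : (0 : ℝ) ≤ k := by positivity
      linarith)
    calc ∫ ω, ‖SS P h ((k + 1) ^ 2) ω‖ ^ 2 ∂mu ≤ ((k : ℝ) + 1) ^ 2 + C := h2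
      _ ≤ ((k : ℝ) + 1) ^ 2 + C * ((k : ℝ) + 1) ^ 2 := by nlinarith
      _ = _ := by field_simp
  have hlint : ∀ k, ∫⁻ ω, ENNReal.ofReal (f k ω) ∂mu ≤
      ENNReal.ofReal ((1 + C) * (1 / ((k : ℝ) + 1) ^ 2)) := by
    intro k
    rw [← ofReal_integral_eq_lintegral_ofReal (hfint k) (Eventually.of_forall (hf0 k))]
    exact ENNReal.ofReal_le_ofReal (hint k)
  have hsum : ∑' k : ℕ, ENNReal.ofReal ((1 + C) * (1 / ((k : ℝ) + 1) ^ 2)) ≠ ⊤ := by
    rw [← ENNReal.ofReal_tsum_of_nonneg (fun k => by positivity) (summable_inv_sq.mul_left _)]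
    exact ENNReal.ofReal_ne_top
  have htot : ∫⁻ ω, ∑' k, ENNReal.ofReal (f k ω) ∂mu ≠ ⊤ := by
    rw [lintegral_tsum fun k => (hfm k).ennreal_ofReal.aemeasurable]
    exact ne_top_of_le_ne_top hsum (ENNReal.tsum_le_tsum hlint)
  have hae := ae_lt_top (Measurable.tsum fun k => (hfm k).ennreal_ofReal) htot
  filter_upwards [hae] with ω hω
  have h1 := ENNReal.tendsto_cofinite_zero_of_tsum_ne_top hω.ne
  rw [Nat.cofinite_eq_atTop] at h1
  have h2 : Tendsto (fun k => f k ω) atTop (𝓝 0) := by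
    have := (ENNReal.tendsto_toReal (a := 0) (by simp)).comp h1
    simp only [ENNReal.toReal_zero] at this
    refine this.congr fun k => ?_
    simp only [Function.comp]
    rw [ENNReal.toReal_ofReal (hf0 k ω)]
  have h3 := (Real.continuous_sqrt.tendsto 0).comp h2
  rw [Real.sqrt_zero] at h3
  refine h3.congr fun k => ?_
  simp only [Function.comp, hf]
  rw [Real.sqrt_sq (by positivity)]

theorem SS_diff (P : ℕ → ℕ) (h : ℕ) (ω : Om) {M N : ℕ} (hMN : M ≤ N) :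
    ‖SS P h N ω‖ ≤ ‖SS P h M ω‖ + (N - M : ℕ) := by
  obtain ⟨d, rfl⟩ := Nat.exists_eq_add_of_le hMN
  unfold SS
  rw [sum_range_add]
  refine (norm_add_le _ _).trans ?_
  gcongr
  refine (norm_sum_le _ _).trans ?_
  simp [norm_e]

theorem weyl_of_squares (P : ℕ → ℕ) (h : ℕ) (ω : Om)
    (hω : Tendsto (fun k : ℕ => ‖SS P h ((k + 1) ^ 2) ω‖ / ((k : ℝ) + 1) ^ 2) atTop (𝓝 0)) :
    Tendsto (fun N : ℕ => ‖SS P h N ω‖ / N) atTop (𝓝 0) := by
  have hsq : Tendsto (fun N : ℕ => Nat.sqrt N - 1) atTop atTop := by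
    rw [tendsto_atTop]
    intro b
    filter_upwards [eventually_ge_atTop ((b + 1) ^ 2)] with N hN
    have : b + 1 ≤ Nat.sqrt N := Nat.le_sqrt'.2 hN
    omega
  have h1 := hω.comp hsq
  have h2 : Tendsto (fun N : ℕ => 2 / ((Nat.sqrt N - 1 : ℕ) + 1 : ℝ)) atTop (𝓝 0) := by
    have h3 : Tendsto (fun k : ℕ => (2 : ℝ) / ((k : ℝ) + 1)) atTop (𝓝 0) := by
      have := (tendsto_one_div_add_atTop_nhds_zero_nat (𝕜 := ℝ)).const_mul 2
      simp only [mul_zero, mul_one_div] at this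
      exact this
    exact h3.comp hsq
  have h3 := h1.add h2
  rw [add_zero] at h3
  refine squeeze_zero' (Eventually.of_forall fun N => by positivity) ?_ h3
  filter_upwards [eventually_ge_atTop 1] with N hN
  set k := Nat.sqrt N - 1 with hk
  have hs1 : 1 ≤ Nat.sqrt N := Nat.le_sqrt'.2 (by simpa using hN)
  have hk1 : k + 1 = Nat.sqrt N := by omega
  have hle : (k + 1) ^ 2 ≤ N := by
    rw [hk1]
    exact Nat.sqrt_le' N
  have hlt : N < (k + 2) ^ 2 := by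
    have := Nat.lt_succ_sqrt' N
    rw [← hk1] at this
    exact this
  simp only [Function.comp]
  have hdiff := SS_diff P h ω hle
  have hNk : ((N - (k + 1) ^ 2 : ℕ) : ℝ) ≤ 2 * ((k : ℝ) + 1) := by
    have : N - (k + 1) ^ 2 ≤ 2 * (k + 1) := by
      have h5 : (k + 2) ^ 2 = (k + 1) ^ 2 + 2 * (k + 1) + 1 := by ring
      omega
    exact_mod_cast this
  have hN0 : (0 : ℝ) < N := by exact_mod_cast hN
  have hle' : ((k : ℝ) + 1) ^ 2 ≤ N := by exact_mod_cast hle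
  have hk0 : (0 : ℝ) < (k : ℝ) + 1 := by positivity
  calc ‖SS P h N ω‖ / N ≤ (‖SS P h ((k + 1) ^ 2) ω‖ + 2 * ((k : ℝ) + 1)) / N := by
        gcongr
        linarith
    _ ≤ (‖SS P h ((k + 1) ^ 2) ω‖ + 2 * ((k : ℝ) + 1)) / ((k : ℝ) + 1) ^ 2 := by gcongr
    _ = _ := by
        rw [add_div]
        congr 1
        field_simp

/-- there is a digit sequence such that all Weyl sums along countably many sequences are small -/
theorem exists_weyl (P : ℕ → ℕ → ℕ) (h0 : ∀ k, 1 ≤ P k 0)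
    (hP : ∀ k n, 2 * P k n ≤ P k (n + 1)) : ∃ ω : Om, ∀ k h : ℕ, 1 ≤ h →
      Tendsto (fun N : ℕ => ‖SS (P k) h N ω‖ / N) atTop (𝓝 0) := by
  have h1 : ∀ᵐ ω ∂mu, ∀ k h : ℕ, 1 ≤ h →
      Tendsto (fun N : ℕ => ‖SS (P k) h N ω‖ / N) atTop (𝓝 0) := by
    rw [ae_all_iff]
    intro k
    rw [ae_all_iff]
    intro h
    by_cases hh : 1 ≤ h
    · filter_upwards [ae_squares (P k) (h0 k) (hP k) h hh] with ω hω _
      exact weyl_of_squares (P k) h ω hω
    · exact Eventually.of_forall fun ω h' => absurd h' hh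
  exact h1.exists

end Pool.Agent.X886.CSN
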